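import Mathlib
import Pool.Agent.Results.MP_4a9ea6_nt.TwoPartTwistsX49
import Pool.Agent.U239.CT.Fin

/-!
# Common twists with few prime factors: every pattern of the 2-part of the leading-term formula on every
# finite set of quadratic twists of `X_0(49)`

`E_D : y² + x y = x³ - (3 D + 1) / 4 x² - 2 D² x - D³` is the quadratic twist by `D` of `X_0(49)`, for the
squarefree `D ≥ 1` with all prime factors `1` modulo `4` (inert or split in `ℚ(√-7)`, in any number).
Let `z = (L(E_D, 1) / Ω) / (∏ c_p / #E_D(ℚ)_tors²)`, the analytic order of `Ш(E_D/ℚ)`. The 2-part of the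
formula holds with a unit (`TwoPart D`) if `L(E_D, 1) ≠ 0`, `E_D(ℚ)` is finite, `Ш(E_D/ℚ)[2^∞] = 0` and
`z` is a unit at the primes above two; `D` is of the other kind (`Other D`) if `z` is integral and not a
unit at all the primes above two, and `E_D(ℚ)` is infinite or `Ш(E_D/ℚ)[2] ≠ 0`. Every `D` of the class is
of exactly one of the two kinds (starting library, `MP_4a9ea6_nt.TwoPartTwistsX49`), according to the
determinant of the matrix `mat D` over the field with two elements.

Let `𝒟` be ANY finite set of numbers of the class, of any kinds and with any common prime factors, for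
instance the set of all divisors of a number `N`, and let `V` be ANY subset of `𝒟`. Let `r` be the number
of the primes which divide a member of `𝒟`.

* There is a product `M` of at most `r + 5 · 4 ^ r |𝒟 \ V| + 1` primes, prime to `𝒟`, all split in
  `ℚ(√-7)` and larger than any given bound, such that for the `q` in a set of prime numbers of lower density
  at least `2 ^ (- r - ω(M) - 1)` among the primes `1` modulo `4` which split in `ℚ(√-7)` the numbers
  `D M q` are of the first kind for the `D` in `V` and of the other kind for the `D` in `𝒟 \ V`.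
* For every number `N` of the class there are `M` prime to `N` with exactly as many prime factors as `N`
  has prime factors which split in `ℚ(√-7)`, all larger than any given bound, such that the 2-part of the
  formula holds with a unit for the twists by `D M` for ALL divisors `D` of `N`.

If all the numbers of the class up to `X` are counted, the proportion of those which have a given pattern
on `𝒟` is known (starting library, `MP_03e5d0_nt.FullClassX49`: the events are independent); there the
number of the prime factors tends to infinity, and the numbers with a bounded number of prime factors are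
negligible. For one new prime factor the proportion is known as a count of vectors over the field with two
elements, which is positive for pairwise coprime `𝒟` (helper687, `PrimeTwistsOfEveryMember`) and zero for
some others. Here `𝒟` is arbitrary, no pattern fails, and the number of the new prime factors is bounded
by `r` and `|𝒟 \ V|`.

Proof: the prime factors of `N` which split are made harmless by pendant primes: `m` is a non-residue
modulo only one of the prime factors `i` of `N` and of `M`; if `i` divides `D` the rows of `i` and `m`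
drop out of the determinant of `mat (D M)`, and if it does not, the row of `m` does. The other prime
factors of `M` form a path, so that the determinant of `mat (D M)` is that of a tridiagonal matrix whose
diagonal entries are arbitrary affine functions of the set of the prime factors of `D`. It is an entry of
a product of elements of `SL₂(𝔽₂)`, the symmetric group of degree three, and by a Fourier expansion modulo
three every function on the subsets of a finite set is obtained in this way.
-/

set_option autoImplicit false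

open scoped Classical

namespace Pool.Agent.Results.MP_92892c_nt.CommonTwists

open Filter Matrix WeierstrassCurve Topology
open Pool.Agent.TH841.NF.D (Sha)
open Pool.Agent.Results.MP_4a9ea6_nt.TwoPartTwistsX49 (twist E MinimalAt nonsing c Tam cubic Omega
  torsOrder anOrder TwoPart)

/-- the class: `D` is squarefree and all its prime factors are `1` modulo `4` -/
def Family (D : ℕ) : Prop := Squarefree D ∧ ∀ p ∈ D.primeFactors, p % 4 = 1

/-- The other kind: `E_D(ℚ)` is infinite or `Ш(E_D/ℚ)` has an element of order two; `L(E_D, s)` has the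
entire continuation `Λ`, and the analytic order of `Ш` is integral and not a unit at two:
`v (anOrder D (Λ 1)) < 1` for all valuations `v` of `ℂ` above two. -/
def Other (D : ℕ) : Prop :=
  ¬ (Finite (E D).toAffine.Point ∧ ∀ x : Sha (E D), 2 • x = 0 → x = 0) ∧
  ∃ Λ : ℂ → ℂ, Differentiable ℂ Λ ∧ (∀ s : ℂ, 2 < s.re → Λ s = (E D).LSeries s) ∧
    ∀ (Γ : Type) [LinearOrderedCommGroupWithZero Γ] (v : Valuation ℂ Γ), v 2 < 1 →
      v (anOrder D (Λ 1)) < 1

/-- the prime factors of `D` which split in `ℚ(√-7)` -/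
noncomputable def split (D : ℕ) : Finset ℕ := D.primeFactors.filter fun p => IsSquare (-7 : ZMod p)

/-- the primes which divide a member of `𝒟` -/
def primes (𝒟 : Finset ℕ) : Finset ℕ := 𝒟.biUnion Nat.primeFactors

/-- `D M` belongs to the class for all `D ∈ 𝒟`, the 2-part of the formula holds with a unit for `D M` if
`D ∈ V`, and `D M` is of the other kind if `D ∈ 𝒟 \ V` -/
def Pattern (𝒟 V : Finset ℕ) (M : ℕ) : Prop :=
  ∀ D ∈ 𝒟, Family (D * M) ∧ (D ∈ V → TwoPart (D * M)) ∧ (D ∉ V → Other (D * M))

/-- the number of the primes `q ≤ X`, `q = 1` modulo `4`, split in `ℚ(√-7)`, with the property `P` -/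
noncomputable def count (P : ℕ → Prop) (X : ℕ) : ℕ :=
  ((Finset.Icc 1 X).filter fun q => q.Prime ∧ q % 4 = 1 ∧ IsSquare (-7 : ZMod q) ∧ P q).card

section proof

theorem count_mono {P Q : ℕ → Prop} {X : ℕ}
    (h : ∀ q : ℕ, q.Prime → q % 4 = 1 → IsSquare (-7 : ZMod q) → P q → Q q) :
    count P X ≤ count Q X := by
  refine Finset.card_le_card fun q hq => ?_
  obtain ⟨h1, h2, h3, h4, h5⟩ := Finset.mem_filter.1 hq
  exact Finset.mem_filter.2 ⟨h1, h2, h3, h4, h q h2 h3 h4 h5⟩

open Pool.Agent.Results.MP_4a9ea6_nt.TwoPartTwistsX49 (core two_iff mat nonsq nonfourth)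
open Pool.Agent.U239.CT

theorem other_iff {D : ℕ} (h : Family D) : Other D ↔ ¬ (mat D).det ≠ 0 := by
  obtain ⟨-, -, -, h4, -, -, Λ, h7, h8, -, h10, -⟩ := core h
  have h4' : (Finite (E D).toAffine.Point ∧ ∀ x : Sha (E D), 2 • x = 0 → x = 0) ↔
      (mat D).det ≠ 0 := by
    have h5 : (Finite (E D).toAffine.Point ∧ ∀ x : Sha (E D), 2 • x = 0 → x = 0) ↔
        (Finite (E D).toAffine.Point ∧ ∀ x : Sha (E D), x + x = 0 → x = 0) := by
      simp only [two_nsmul]
    exact h5.trans h4
  constructor
  · rintro ⟨h1, -⟩ h2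
    exact h1 (h4'.2 h2)
  · intro h1
    refine ⟨fun h2 => h1 (h4'.1 h2), Λ, h7, h8, fun Γ _ v hv => ?_⟩
    obtain ⟨h11, h12⟩ := h10 Γ v hv
    exact lt_of_le_of_ne h11 fun h13 => h1 (h12.1 h13)

theorem pattern_of {𝒟 V : Finset ℕ} {M : ℕ} (h𝒟 : ∀ D ∈ 𝒟, Family D)
    (h : ∀ D ∈ 𝒟, Family (D * M) ∧
      ((mat (D * M)).det ≠ 0 ↔ D.primeFactors ∉ (𝒟 \ V).image Nat.primeFactors)) :
    Pattern 𝒟 V M := by
  intro D hD
  obtain ⟨h1, h2⟩ := h D hD
  have h3 : D.primeFactors ∉ (𝒟 \ V).image Nat.primeFactors ↔ D ∈ V := by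
    rw [← not_iff_not, not_not, Finset.mem_image]
    constructor
    · rintro ⟨D', hD', h4⟩
      have hD' := Finset.mem_sdiff.1 hD'
      have h5 := Nat.prod_primeFactors_of_squarefree (h𝒟 D' hD'.1).1
      have h6 := Nat.prod_primeFactors_of_squarefree (h𝒟 D hD).1
      rw [h4, h6] at h5
      rw [h5]
      exact hD'.2
    · intro h4
      exact ⟨D, Finset.mem_sdiff.2 ⟨hD, h4⟩, rfl⟩
  rw [h3] at h2
  exact ⟨h1, fun h4 => (two_iff h1).2 (h2.2 h4), fun h4 => (other_iff h1).2 fun h5 => h4 (h2.1 h5)⟩

end proof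

open Pool.Agent.U239.CT in
/-- **Every pattern on every finite set of members of the class is realised by common twists with few
prime factors.** -/
theorem result :
    (∀ D : ℕ, Family D → (TwoPart D ∨ Other D) ∧ ¬ (TwoPart D ∧ Other D)) ∧
    (∀ 𝒟 V : Finset ℕ, (∀ D ∈ 𝒟, Family D) → V ⊆ 𝒟 → ∀ B : ℕ,
      ∃ M : ℕ, Family M ∧
        M.primeFactors.card ≤ (primes 𝒟).card + 5 * 4 ^ (primes 𝒟).card * (𝒟 \ V).card + 1 ∧
        (∀ q ∈ M.primeFactors, B < q ∧ q ∉ primes 𝒟 ∧ IsSquare (-7 : ZMod q)) ∧
        ∀ ε : ℝ, 0 < ε → ∀ᶠ X : ℕ in atTop,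
          (1 / 2 : ℝ) ^ ((primes 𝒟).card + M.primeFactors.card + 1) - ε ≤
            (count (fun q => B < q ∧ q ∉ primes 𝒟 ∧ q ∉ M.primeFactors ∧ Pattern 𝒟 V (M * q)) X : ℝ) /
              (count (fun _ => True) X : ℝ)) ∧
    (∀ N : ℕ, Family N → ∀ B : ℕ,
      ∃ M : ℕ, Family M ∧ M.primeFactors.card = (split N).card ∧
        (∀ q ∈ M.primeFactors, B < q ∧ ¬ q ∣ N ∧ IsSquare (-7 : ZMod q)) ∧
        ∀ D : ℕ, D ∣ N → Family (D * M) ∧ TwoPart (D * M)) := by
  refine ⟨fun D hD => ?_, fun 𝒟 V h𝒟 hV B => ?_, fun N hN B => ?_⟩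
  · have h1 := Pool.Agent.Results.MP_4a9ea6_nt.TwoPartTwistsX49.two_iff hD
    rw [h1, other_iff hD]
    exact ⟨em _, fun h => h.2 h.1⟩
  · have hR : ∀ r ∈ primes 𝒟, r.Prime ∧ r % 4 = 1 := by
      intro r hr
      obtain ⟨D, hD, hr⟩ := Finset.mem_biUnion.1 hr
      exact ⟨Nat.prime_of_mem_primeFactors hr, (h𝒟 D hD).2 r hr⟩
    have hsub : ∀ D ∈ 𝒟, D.primeFactors ⊆ primes 𝒟 := fun D hD r hr =>
      Finset.mem_biUnion.2 ⟨D, hD, hr⟩
    obtain ⟨M, h1, h0, h2, v, τ, h3⟩ := common (primes 𝒟) hR
      ((𝒟 \ V).image Nat.primeFactors) (by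
        intro A hA
        obtain ⟨D, hD, rfl⟩ := Finset.mem_image.1 hA
        exact hsub D (Finset.mem_sdiff.1 hD).1) B
    have hc1 : (spl (primes 𝒟)).card ≤ (primes 𝒟).card := Finset.card_filter_le _ _
    have hc2 : ((𝒟 \ V).image Nat.primeFactors).card ≤ (𝒟 \ V).card := Finset.card_image_le
    refine ⟨M, h1, ?_, h2, ?_⟩
    · refine h0.trans ?_
      have hc3 := Nat.mul_le_mul_right (5 * 4 ^ (primes 𝒟).card) hc2
      rw [Nat.mul_comm (𝒟 \ V).card] at hc3
      omega
    have hR' : ∀ r ∈ primes 𝒟 ∪ M.primeFactors, r.Prime ∧ r % 4 = 1 := by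
      intro r hr
      rcases Finset.mem_union.1 hr with hr | hr
      · exact hR r hr
      · exact ⟨Nat.prime_of_mem_primeFactors hr, h1.2 r hr⟩
    obtain ⟨G, hG⟩ : ∃ G : ℕ → Prop, ∀ q, G q ↔ (B < q ∧ q ∉ primes 𝒟 ∪ M.primeFactors ∧
        (∀ r ∈ primes 𝒟 ∪ M.primeFactors,
          Pool.Agent.Results.MP_4a9ea6_nt.TwoPartTwistsX49.nonsq r q = v r) ∧
        Pool.Agent.Results.MP_4a9ea6_nt.TwoPartTwistsX49.nonfourth q = τ) := ⟨_, fun _ => Iff.rfl⟩
    have h4 := dens_vec (primes 𝒟 ∪ M.primeFactors) hR' v τ B.factorial (Nat.factorial_pos B) G (by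
      intro q hq hqN hqR _ _
      rw [hG]
      refine ⟨fun h5 => ⟨?_, hqR, h5⟩, fun h5 => h5.2.2⟩
      by_contra h6
      exact hqN ((Nat.Prime.dvd_factorial hq).2 (not_lt.1 h6)))
    have hcard : (primes 𝒟 ∪ M.primeFactors).card = (primes 𝒟).card + M.primeFactors.card := by
      rw [Finset.card_union_of_disjoint]
      rw [Finset.disjoint_right]
      intro q hq
      exact (h2 q hq).2.1
    rw [hcard] at h4
    intro ε hε
    have h5 := h4.eventually_const_lt (sub_lt_self _ hε)
    filter_upwards [h5] with X hX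
    refine hX.le.trans ?_
    have h6 : (count (fun _ => True) X : ℝ) =
        (((Finset.Icc 1 X).filter fun l => l.Prime ∧ l % 4 = 1 ∧
          IsSquare (-7 : ZMod l)).card : ℝ) := by
      unfold count
      simp only [and_true]
    rw [h6]
    refine div_le_div_of_nonneg_right ?_ (by positivity)
    refine Nat.cast_le.2 (count_mono (P := G) fun q h8 h9 h10 h11 => ?_)
    obtain ⟨h12, h13, h14, h15⟩ := (hG q).1 h11
    exact ⟨h12, fun h => h13 (Finset.mem_union_left _ h), fun h => h13 (Finset.mem_union_right _ h),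
      pattern_of h𝒟 fun D hD => h3 q h8 h9 h10 h12 h13 h14 h15 D (h𝒟 D hD) (hsub D hD)⟩
  · have hR : ∀ r ∈ N.primeFactors, r.Prime ∧ r % 4 = 1 := fun r hr =>
      ⟨Nat.prime_of_mem_primeFactors hr, hN.2 r hr⟩
    obtain ⟨M, h1, h2, h3, h4⟩ := common_all N.primeFactors hR B
    refine ⟨M, h1, h2, fun q hq => ?_, fun D hD => ?_⟩
    · obtain ⟨h5, h6, h7⟩ := h3 q hq
      exact ⟨h5, fun h8 => h6 (Nat.mem_primeFactors.2
        ⟨Nat.prime_of_mem_primeFactors hq, h8, hN.1.ne_zero⟩), h7⟩
    · have h5 : D.primeFactors ⊆ N.primeFactors := Nat.primeFactors_mono hD hN.1.ne_zero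
      have h6 : Family D := ⟨hN.1.squarefree_of_dvd hD, fun p hp => hN.2 p (h5 hp)⟩
      obtain ⟨h7, h8⟩ := h4 D h6 h5
      exact ⟨h7, (Pool.Agent.Results.MP_4a9ea6_nt.TwoPartTwistsX49.two_iff h7).2 h8⟩

end Pool.Agent.Results.MP_92892c_nt.CommonTwists
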